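import Pool.Agent.H601R2.KPMem

/-!
# Recognising kernel-perfect digraphs is `Π₂ᵖ`-complete

`KernelPerfect` is the decision problem: given a digraph by the lists of its vertices and of its
arcs, has every induced subdigraph a kernel?

The reduction starts from `∃∀`-DNF.  Vertices sit at the positions of a directed cycle of length
`N = R (d + g)`, every position carrying two twin copies.  The only one-way arcs are those from a
position to the next one.  Two vertices whose positions are at circular distance between `2` and
`d - 1` are joined by a two-way arc, so that an independent set is a set of tokens at distance at
least `d`, and a kernel is such a set in which no token can be slid to the next position.  The ring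
is divided into `R` tracks of length `d + g`, one for each existential variable, one for each term
of the formula, and two more; a track has stops, one for each literal of its term.  Further two-way
arcs block the tokens sitting at the stops of compatible literals, and nothing else.  By Duchet's
theorem an induced subdigraph which misses a position has a kernel, since its one-way arcs form an
acyclic digraph; an induced subdigraph which meets all positions corresponds to an assignment of
the existential variables, and it has a kernel iff the universal variables can be chosen such
that no term is true.
-/

namespace Pool.Agent.Results.MP_8f64b1_lc.KernelPerfectPi2

open Pool.Agent.NPC Pool.Agent.NPC.P2 Pool.Agent.NPC.KP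

/-- **Kernel-perfectness of digraphs is `Π₂ᵖ`-complete**; it is in `coNP` iff `NP = coNP`. -/
theorem result : Pi2Complete (lang KernelPerfect) ∧
    (InNP (lang KernelPerfect)ᶜ ↔ ∀ L : Set (List Bool), InNP L ↔ InNP Lᶜ) :=
  ⟨⟨kernelPerfect_inPi2, kernelPerfect_hard⟩, inCoNP_iff⟩

end Pool.Agent.Results.MP_8f64b1_lc.KernelPerfectPi2
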